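import Pool.Agent.Helper89.Vol5.Goals

/-! # MP_cd13d2_co, project V58: packet V58-J58 (the planar inequality); port of `Pool.Agent.Helper26.Vol4.J47` -/

set_option autoImplicit false

namespace Pool.Agent.Helper68.Vol5.PkJ58

open Set Pool.Agent.Helper89.Vol5

/-- first case, reduction to one variable -/
theorem caseA {t k M g1 g2 S : ℝ} (ht0 : 0 ≤ t) (ht2 : t ^ 2 ≤ 1 / 2) (hk : 0 ≤ k) (hg1 : 0 ≤ g1)
    (h1 : (k + t) ^ 2 + M ^ 2 ≤ 3 / 2)
    (h3 : S ^ 2 + g1 ^ 2 + g2 ^ 2 + 4 * t ^ 2 + 4 * t * g1 ≤ 6)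
    (h4 : √(3 / 2 - t ^ 2) * g2 ≤ t * g1) :
    k * g2 + M * g1 + t * S ≤ √(3 / 2 - t ^ 2) * g1 + t * √(6 - (g1 + 2 * t) ^ 2) := by
  set M0 : ℝ := √(3 / 2 - t ^ 2) with hM0
  have hpos : 0 < 3 / 2 - t ^ 2 := by linarith
  have hM0pos : 0 < M0 := Real.sqrt_pos.2 hpos
  have hM0sq : M0 ^ 2 = 3 / 2 - t ^ 2 := Real.sq_sqrt hpos.le
  have hkN : 0 ≤ k * t := mul_nonneg hk ht0
  have hMsq : M ^ 2 ≤ M0 ^ 2 - 2 * (k * t) := by nlinarith [sq_nonneg k]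
  have hb : 0 ≤ M0 ^ 2 - k * t := by nlinarith [sq_nonneg M]
  have hMM : M * M0 ≤ M0 ^ 2 - k * t := by
    refine abs_le_of_sq_le_sq' ?_ hb |>.2
    have h5 : (M * M0) ^ 2 ≤ (M0 ^ 2 - 2 * (k * t)) * M0 ^ 2 := by
      rw [mul_pow]
      exact mul_le_mul_of_nonneg_right hMsq (sq_nonneg _)
    nlinarith [sq_nonneg (k * t)]
  have h6 : k * g2 + M * g1 ≤ M0 * g1 := by
    have h7 : k * (M0 * g2) ≤ k * (t * g1) := mul_le_mul_of_nonneg_left h4 hk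
    have h8 : M * M0 * g1 ≤ (M0 ^ 2 - k * t) * g1 := mul_le_mul_of_nonneg_right hMM hg1
    have h9 : (k * g2 + M * g1) * M0 ≤ (M0 * g1) * M0 := by nlinarith
    exact le_of_mul_le_mul_right h9 hM0pos
  have h10 : S ≤ √(6 - (g1 + 2 * t) ^ 2) := by
    apply Real.le_sqrt_of_sq_le
    nlinarith [sq_nonneg g2]
  have h11 := mul_le_mul_of_nonneg_left h10 ht0
  linarith

/-- first case, the function of one variable -/
theorem caseA2 {t g : ℝ} (ht : 0 ≤ t) (ht2 : t ^ 2 ≤ 1 / 2) (hg : 0 ≤ g) (hg1 : g ≤ 1)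
    (hA : 0 ≤ 6 - (g + 2 * t) ^ 2) :
    (t ≤ 54 / 100 → √(3 / 2 - t ^ 2) * g + t * √(6 - (g + 2 * t) ^ 2) ≤ h5 t) ∧
    (54 / 100 ≤ t → √(3 / 2 - t ^ 2) * g + t * √(6 - (g + 2 * t) ^ 2) ≤ 1.82) := by
  have hM : 0 ≤ 3 / 2 - t ^ 2 := by linarith
  set M := √(3 / 2 - t ^ 2) with hMd
  have hM0 : 0 ≤ M := Real.sqrt_nonneg _
  have hM2 : M ^ 2 = 3 / 2 - t ^ 2 := Real.sq_sqrt hM
  set a := √(6 - (g + 2 * t) ^ 2) with had
  have ha0 : 0 ≤ a := Real.sqrt_nonneg _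
  have ha2 : a ^ 2 = 6 - (g + 2 * t) ^ 2 := Real.sq_sqrt hA
  constructor
  · intro hN3
    have hB : 1 / 2 ≤ 6 - (1 + 2 * t) ^ 2 := by nlinarith
    have hf : h5 t = M + t * √(6 - (1 + 2 * t) ^ 2) := rfl
    rw [hf]
    set b := √(6 - (1 + 2 * t) ^ 2) with hbd
    have hb2 : b ^ 2 = 6 - (1 + 2 * t) ^ 2 := Real.sq_sqrt (by linarith)
    have hb0 : 0 < b := Real.sqrt_pos.2 (by linarith)
    have hba : b ≤ a := Real.sqrt_le_sqrt (by nlinarith)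
    have h1 : t * (1 + 2 * t) ≤ M * b := by
      refine abs_le_of_sq_le_sq' ?_ (by positivity) |>.2
      have h2 : (M * b) ^ 2 = (3 / 2 - t ^ 2) * (6 - (1 + 2 * t) ^ 2) := by
        rw [mul_pow, hM2, hb2]
      rw [h2]
      have h3 : (t * (1 + 2 * t)) ^ 2 ≤ (54 / 100 * (1 + 2 * (54 / 100))) ^ 2 := by
        gcongr
      have h4 : (3 / 2 - (54 / 100) ^ 2) * (6 - (1 + 2 * (54 / 100)) ^ 2) ≤
          (3 / 2 - t ^ 2) * (6 - (1 + 2 * t) ^ 2) := by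
        have h5 : (3 / 2 - (54 / 100 : ℝ) ^ 2) ≤ 3 / 2 - t ^ 2 := by nlinarith
        have h6 : (6 - (1 + 2 * (54 / 100 : ℝ)) ^ 2) ≤ 6 - (1 + 2 * t) ^ 2 := by nlinarith
        exact mul_le_mul h5 h6 (by norm_num) hM
      have h5 : (54 / 100 * (1 + 2 * (54 / 100 : ℝ))) ^ 2 ≤
          (3 / 2 - (54 / 100 : ℝ) ^ 2) * (6 - (1 + 2 * (54 / 100)) ^ 2) := by norm_num
      linarith
    have h2 : (a - b) * (2 * b) ≤ (1 - g) * (2 + 4 * t) := by
      have h3 : (a - b) * (a + b) = (1 - g) * (1 + g + 4 * t) := by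
        linear_combination ha2 - hb2
      have h4 : (a - b) * (2 * b) ≤ (a - b) * (a + b) :=
        mul_le_mul_of_nonneg_left (by linarith) (by linarith)
      have h5 : (1 - g) * (1 + g + 4 * t) ≤ (1 - g) * (2 + 4 * t) :=
        mul_le_mul_of_nonneg_left (by linarith) (by linarith)
      linarith
    have h3 : t * (a - b) * b ≤ (1 - g) * M * b := by
      have h4 : t * ((a - b) * (2 * b)) ≤ t * ((1 - g) * (2 + 4 * t)) :=
        mul_le_mul_of_nonneg_left h2 ht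
      have h5 : (1 - g) * (t * (1 + 2 * t)) ≤ (1 - g) * (M * b) :=
        mul_le_mul_of_nonneg_left h1 (by linarith)
      nlinarith
    have h4 := le_of_mul_le_mul_right h3 hb0
    linarith
  · intro hN3
    have h1 : (M * (g + 2 * t) + t * a) ^ 2 ≤ 9 := by
      have h2 : (M * (g + 2 * t) + t * a) ^ 2 + (M * a - t * (g + 2 * t)) ^ 2 =
          (M ^ 2 + t ^ 2) * ((g + 2 * t) ^ 2 + a ^ 2) := by ring
      have h3 : (M ^ 2 + t ^ 2) * ((g + 2 * t) ^ 2 + a ^ 2) = 9 := by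
        rw [hM2, ha2]; ring
      nlinarith [sq_nonneg (M * a - t * (g + 2 * t))]
    have h2 : M * (g + 2 * t) + t * a ≤ 3 := by
      refine abs_le_of_sq_le_sq' ?_ (by norm_num) |>.2
      exact h1.trans (by norm_num)
    have h3 : 0.59 ≤ t * M := by
      refine abs_le_of_sq_le_sq' ?_ (by positivity) |>.2
      rw [mul_pow, hM2]
      have h4 : (54 / 100) ^ 2 ≤ t ^ 2 := by gcongr
      nlinarith
    linarith

/-- second case, the two branches of the linear bound for `g2 + κ g1` -/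
theorem caseB {t k M g1 g2 S : ℝ} (ht0 : 0 ≤ t) (ht2 : t ^ 2 ≤ 1 / 2) (hg1 : 0 ≤ g1)
    (hg2 : 0 ≤ g2) (h1 : (k + t) ^ 2 + M ^ 2 ≤ 3 / 2) (h2 : g1 ^ 2 + g2 ^ 2 ≤ 1)
    (h3 : S ^ 2 + g1 ^ 2 + g2 ^ 2 + 4 * t ^ 2 + 4 * t * g1 ≤ 6)
    (h4 : 0.8164 * (t * g1) ≤ g2) : k * g2 + M * g1 + t * S ≤ 1.82 := by
  have ht1 : t ≤ 0.7072 := by nlinarith
  obtain ⟨R, hR⟩ : ∃ R, R = √(3 / 2 : ℝ) := ⟨_, rfl⟩
  have hR0 : 0 ≤ R := hR ▸ Real.sqrt_nonneg _
  have hR2 : R ^ 2 = 3 / 2 := by rw [hR]; exact Real.sq_sqrt (by norm_num)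
  have hRh : R ≤ 1.2248 := by nlinarith
  obtain ⟨G, hG⟩ : ∃ G, G = √(g1 ^ 2 + g2 ^ 2) := ⟨_, rfl⟩
  have hG0 : 0 ≤ G := hG ▸ Real.sqrt_nonneg _
  have hG2 : G ^ 2 = g1 ^ 2 + g2 ^ 2 := by rw [hG]; exact Real.sq_sqrt (by positivity)
  have hG1 : G ≤ 1 := by nlinarith
  have cs : (k + t) * g2 + M * g1 ≤ R * G := by
    have e : ((k + t) * g2 + M * g1) ^ 2 ≤ (R * G) ^ 2 := by
      have e1 : (R * G) ^ 2 = 3 / 2 * (g1 ^ 2 + g2 ^ 2) := by rw [mul_pow, hR2, hG2]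
      have e2 : ((k + t) * g2 + M * g1) ^ 2 + ((k + t) * g1 - M * g2) ^ 2 =
          ((k + t) ^ 2 + M ^ 2) * (g1 ^ 2 + g2 ^ 2) := by ring
      have e3 := mul_le_mul_of_nonneg_right h1 (by positivity : 0 ≤ g1 ^ 2 + g2 ^ 2)
      rw [e1]
      linarith [sq_nonneg ((k + t) * g1 - M * g2)]
    exact le_of_abs_le (abs_le_of_sq_le_sq e (by positivity))
  have hS' : 3.4 * S ≤ 8.89 - G ^ 2 - 4 * t ^ 2 - 4 * (t * g1) := by
    rw [hG2]
    linarith [sq_nonneg (S - 1.7)]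
  have hNS := mul_le_mul_of_nonneg_left hS' ht0
  have ha : 0 ≤ t * g1 := mul_nonneg ht0 hg1
  have hrG := mul_le_mul_of_nonneg_right hRh hG0
  have e3 : 0 ≤ (t * g1) * (g2 - 0.8164 * (t * g1)) := mul_nonneg ha (by linarith)
  -- `3.4 g2 + 4 t g1` is the number `3.4 (g2 + κ g1)` of the text
  rcases le_total t (54 / 100) with ht | ht
  · have hq : 6.12 * t * G ≤ 3.4 * g2 + 4 * (t * g1) := by
      have e : (6.12 * t * G) ^ 2 ≤ (3.4 * g2 + 4 * (t * g1)) ^ 2 := by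
        have e1 : (3.4 * g2 + 4 * (t * g1)) ^ 2 - (6.12 * t * G) ^ 2 =
            (11.56 - 37.4544 * t ^ 2) * g2 ^ 2 +
              27.2 * ((t * g1) * (g2 - 0.8164 * (t * g1))) +
              (27.2 * 0.8164 + 16 - 37.4544) * (t * g1) ^ 2 := by
          rw [mul_pow (6.12 * t), hG2]; ring
        have e2 : 0 ≤ (11.56 - 37.4544 * t ^ 2) * g2 ^ 2 :=
          mul_nonneg (by nlinarith) (sq_nonneg _)
        have e4 : 0 ≤ (27.2 * 0.8164 + 16 - 37.4544) * (t * g1) ^ 2 :=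
          mul_nonneg (by norm_num) (sq_nonneg (t * g1))
        linarith only [e1, e2, e3, e4]
      exact le_of_abs_le (abs_le_of_sq_le_sq e (by positivity))
    have hNq := mul_le_mul_of_nonneg_left hq ht0
    have hNG : t * G ≤ t := by nlinarith
    have hNG0 : 0 ≤ t * G := mul_nonneg ht0 hG0
    have ht3 : t ^ 2 ≤ 0.2916 := by nlinarith
    have c1 : 0 ≤ (1 - G) * (3.4 * 1.2248 - 6.12 * t ^ 2 - t * (1 + G)) := by
      refine mul_nonneg (by linarith) ?_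
      nlinarith
    have c2 := mul_nonneg (by linarith : 0 ≤ 4 * t + 9.7) (sq_nonneg (t - 0.448))
    linarith only [cs, hNS, hNq, hrG, c1, c2, ht0, ht, sq_nonneg t]
  · have hq : 3.298 * G ≤ 3.4 * g2 + 4 * (t * g1) := by
      have e : (3.298 * G) ^ 2 ≤ (3.4 * g2 + 4 * (t * g1)) ^ 2 := by
        have e1 : (3.4 * g2 + 4 * (t * g1)) ^ 2 - (3.298 * G) ^ 2 =
            (11.56 - 10.876804) * g2 ^ 2 +
              27.2 * ((t * g1) * (g2 - 0.8164 * (t * g1))) +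
              ((27.2 * 0.8164 + 16) * t ^ 2 - 10.876804) * g1 ^ 2 := by
          rw [mul_pow, hG2]; ring
        have e2 : 0 ≤ (11.56 - 10.876804) * g2 ^ 2 :=
          mul_nonneg (by norm_num) (sq_nonneg _)
        have e4 : 0 ≤ ((27.2 * 0.8164 + 16) * t ^ 2 - 10.876804) * g1 ^ 2 :=
          mul_nonneg (by nlinarith) (sq_nonneg _)
        linarith only [e1, e2, e3, e4]
      exact le_of_abs_le (abs_le_of_sq_le_sq e (by positivity))
    have hNq := mul_le_mul_of_nonneg_left hq ht0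
    have hNG : t * G ≤ t := by nlinarith
    have c1 : 0 ≤ (1 - G) * (3.4 * 1.2248 - 3.298 * t - t * (1 + G)) := by
      refine mul_nonneg (by linarith) ?_
      nlinarith
    have c2 := mul_nonneg (by linarith : 0 ≤ 4 * t + 4.8) (sq_nonneg (t - 0.6186))
    nlinarith only [cs, hNS, hNq, hrG, c1, c2, ht0, ht, ht1]

theorem thm (hn : G_NUM5) : G_J58 := by
  intro C hC t k M g1 g2 S ht0 ht2 hk hM hg1 hg2 hS hkM hg hSS
  have hC1 : (1.82 : ℝ) ≤ C := by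
    have a := hn.2.1
    have b := hC (455 / 1000) ⟨by norm_num, by norm_num⟩
    have c : (1.82 : ℝ) < 1.834874 := by norm_num
    linarith
  have hg1' : g1 ≤ 1 := by nlinarith [sq_nonneg g2, sq_nonneg (g1 - 1)]
  by_cases hc : √(3 / 2 - t ^ 2) * g2 ≤ t * g1
  · have a := caseA ht0 ht2 hk hg1 hkM hSS hc
    have hA : 0 ≤ 6 - (g1 + 2 * t) ^ 2 := by nlinarith [sq_nonneg S, sq_nonneg g2]
    have b := caseA2 ht0 ht2 hg1 hg1' hA
    rcases le_total t (54 / 100) with h | h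
    · exact (a.trans (b.1 h)).trans (hC t ⟨ht0, h.trans (by norm_num)⟩)
    · exact (a.trans (b.2 h)).trans hC1
  · push Not at hc
    have hs : √(3 / 2 - t ^ 2) ≤ 1.2248 := by
      refine Real.sqrt_le_iff.2 ⟨by norm_num, ?_⟩
      nlinarith [sq_nonneg t]
    have hx : 0.8164 * (t * g1) ≤ g2 := by
      have := mul_le_mul_of_nonneg_right hs hg2
      linarith
    exact (caseB ht0 ht2 hg1 hg2 hkM hg hSS hx).trans hC1

end Pool.Agent.Helper68.Vol5.PkJ58
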