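import Pool.Agent.Helper89.Vol5.Goals2
import Pool.Agent.Helper57.Vol5.P222
import Pool.Agent.Helper4.Vol5.AX

/-!
Packet V58-P222E (MP_cd13d2_co): equality for the extremal pattern.
-/

set_option autoImplicit false

namespace Pool.Agent.Helper68.Vol5.PkP222E

open MeasureTheory Set Pool.Agent.Helper86.Poly Pool.Agent.Helper89.Vol5
open Pool.Agent.Helper57.Vol5.PkP222 (nsq coord pt_seg seg_seg)
open Pool.Agent.Helper4.Vol5.PkAX (d3 gram3 had3 dte)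

theorem ext5 {u v : E 5} (h0 : u 0 = v 0) (h1 : u 1 = v 1) (h2 : u 2 = v 2) (h3 : u 3 = v 3)
    (h4 : u 4 = v 4) : u = v := by
  ext m
  fin_cases m
  · exact h0
  · exact h1
  · exact h2
  · exact h3
  · exact h4

/-- the linear map `z ↦ (-z0, τ z1, z2 a + z3 b + z4 c)` -/
noncomputable def fL (τ a2 a3 a4 b2 b3 b4 c2 c3 c4 : ℝ) : E 5 →ₗ[ℝ] E 5 where
  toFun z := !₂[-z 0, τ * z 1, z 2 * a2 + z 3 * b2 + z 4 * c2, z 2 * a3 + z 3 * b3 + z 4 * c3,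
    z 2 * a4 + z 3 * b4 + z 4 * c4]
  map_add' x y := by
    refine ext5 ?_ ?_ ?_ ?_ ?_
    · simp; ring
    · simp; ring
    · simp; ring
    · simp; ring
    · simp; ring
  map_smul' r x := by
    refine ext5 ?_ ?_ ?_ ?_ ?_
    · simp
    · simp; ring
    · simp; ring
    · simp; ring
    · simp; ring

theorem fL_apply (τ a2 a3 a4 b2 b3 b4 c2 c3 c4 : ℝ) (z : E 5) :
    fL τ a2 a3 a4 b2 b3 b4 c2 c3 c4 z = !₂[-z 0, τ * z 1, z 2 * a2 + z 3 * b2 + z 4 * c2,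
      z 2 * a3 + z 3 * b3 + z 4 * c3, z 2 * a4 + z 3 * b4 + z 4 * c4] := rfl

theorem fL_norm {τ a2 a3 a4 b2 b3 b4 c2 c3 c4 : ℝ} (hτ : τ ^ 2 = 1)
    (ha : a2 ^ 2 + a3 ^ 2 + a4 ^ 2 = 1) (hb : b2 ^ 2 + b3 ^ 2 + b4 ^ 2 = 1)
    (hc : c2 ^ 2 + c3 ^ 2 + c4 ^ 2 = 1) (hab : a2 * b2 + a3 * b3 + a4 * b4 = 0)
    (hac : a2 * c2 + a3 * c3 + a4 * c4 = 0) (hbc : b2 * c2 + b3 * c3 + b4 * c4 = 0) (z : E 5) :
    ‖fL τ a2 a3 a4 b2 b3 b4 c2 c3 c4 z‖ = ‖z‖ := by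
  have h1 : ‖fL τ a2 a3 a4 b2 b3 b4 c2 c3 c4 z‖ ^ 2 = ‖z‖ ^ 2 := by
    rw [nsq, nsq, fL_apply]
    simp only [Matrix.cons_val_zero, Matrix.cons_val_one, Matrix.cons_val]
    linear_combination (z 1) ^ 2 * hτ + (z 2) ^ 2 * ha + (z 3) ^ 2 * hb + (z 4) ^ 2 * hc +
      2 * z 2 * z 3 * hab + 2 * z 2 * z 4 * hac + 2 * z 3 * z 4 * hbc
  exact (sq_eq_sq₀ (norm_nonneg _) (norm_nonneg _)).1 h1

/-- the isometry -/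
noncomputable def fI {τ a2 a3 a4 b2 b3 b4 c2 c3 c4 : ℝ} (hτ : τ ^ 2 = 1)
    (ha : a2 ^ 2 + a3 ^ 2 + a4 ^ 2 = 1) (hb : b2 ^ 2 + b3 ^ 2 + b4 ^ 2 = 1)
    (hc : c2 ^ 2 + c3 ^ 2 + c4 ^ 2 = 1) (hab : a2 * b2 + a3 * b3 + a4 * b4 = 0)
    (hac : a2 * c2 + a3 * c3 + a4 * c4 = 0) (hbc : b2 * c2 + b3 * c3 + b4 * c4 = 0) :
    E 5 ≃ₗᵢ[ℝ] E 5 :=
  LinearIsometry.toLinearIsometryEquiv
    ⟨fL τ a2 a3 a4 b2 b3 b4 c2 c3 c4, fL_norm hτ ha hb hc hab hac hbc⟩ rfl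

theorem fI_apply {τ a2 a3 a4 b2 b3 b4 c2 c3 c4 : ℝ} (hτ : τ ^ 2 = 1)
    (ha : a2 ^ 2 + a3 ^ 2 + a4 ^ 2 = 1) (hb : b2 ^ 2 + b3 ^ 2 + b4 ^ 2 = 1)
    (hc : c2 ^ 2 + c3 ^ 2 + c4 ^ 2 = 1) (hab : a2 * b2 + a3 * b3 + a4 * b4 = 0)
    (hac : a2 * c2 + a3 * c3 + a4 * c4 = 0) (hbc : b2 * c2 + b3 * c3 + b4 * c4 = 0) (z : E 5) :
    fI hτ ha hb hc hab hac hbc z = !₂[-z 0, τ * z 1, z 2 * a2 + z 3 * b2 + z 4 * c2,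
      z 2 * a3 + z 3 * b3 + z 4 * c3, z 2 * a4 + z 3 * b4 + z 4 * c4] := rfl

/-- a point at distance at most one half from two points at distance one is their midpoint -/
theorem mid {r2 r3 r4 p2 p3 p4 q2 q3 q4 : ℝ}
    (h : (q2 - p2) ^ 2 + (q3 - p3) ^ 2 + (q4 - p4) ^ 2 = 1)
    (h1 : (r2 - p2) ^ 2 + (r3 - p3) ^ 2 + (r4 - p4) ^ 2 ≤ 1 / 4)
    (h2 : (r2 - q2) ^ 2 + (r3 - q3) ^ 2 + (r4 - q4) ^ 2 ≤ 1 / 4) :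
    r2 = (p2 + q2) / 2 ∧ r3 = (p3 + q3) / 2 ∧ r4 = (p4 + q4) / 2 := by
  have h3 : (r2 - (p2 + q2) / 2) ^ 2 + (r3 - (p3 + q3) / 2) ^ 2 + (r4 - (p4 + q4) / 2) ^ 2 ≤ 0 := by
    linarith
  have k2 := sq_nonneg (r2 - (p2 + q2) / 2)
  have k3 := sq_nonneg (r3 - (p3 + q3) / 2)
  have k4 := sq_nonneg (r4 - (p4 + q4) / 2)
  exact ⟨sub_eq_zero.1 (pow_eq_zero_iff two_ne_zero |>.1 (by linarith)),
    sub_eq_zero.1 (pow_eq_zero_iff two_ne_zero |>.1 (by linarith)),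
    sub_eq_zero.1 (pow_eq_zero_iff two_ne_zero |>.1 (by linarith))⟩

/-- three unit vectors with determinant at least one are pairwise orthogonal -/
theorem orth {a2 a3 a4 b2 b3 b4 c2 c3 c4 : ℝ} (ha : a2 ^ 2 + a3 ^ 2 + a4 ^ 2 = 1)
    (hb : b2 ^ 2 + b3 ^ 2 + b4 ^ 2 = 1) (hc : c2 ^ 2 + c3 ^ 2 + c4 ^ 2 = 1)
    (hd : 1 ≤ d3 a2 a3 a4 b2 b3 b4 c2 c3 c4 ^ 2) : a2 * b2 + a3 * b3 + a4 * b4 = 0 := by
  have h1 := gram3 a2 a3 a4 b2 b3 b4 c2 c3 c4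
  rw [ha, hb, hc] at h1
  have h2 : (a2 * b2 + a3 * b3 + a4 * b4) ^ 2 = 0 :=
    le_antisymm (by linarith) (sq_nonneg _)
  exact pow_eq_zero_iff two_ne_zero |>.1 h2

/-- the last three coordinates of a point whose distances to the ends of a unit segment are at most one -/
theorem midx (u v w : E 5) (h : (u 0 - v 0) ^ 2 + (u 1 - v 1) ^ 2 = 3 / 4) (h0 : w 0 = v 0)
    (h1 : w 1 = v 1) (hvw : (w 2 - v 2) ^ 2 + (w 3 - v 3) ^ 2 + (w 4 - v 4) ^ 2 = 1)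
    (hv : (u 0 - v 0) ^ 2 + (u 1 - v 1) ^ 2 + (u 2 - v 2) ^ 2 + (u 3 - v 3) ^ 2 +
      (u 4 - v 4) ^ 2 ≤ 1)
    (hw : (u 0 - w 0) ^ 2 + (u 1 - w 1) ^ 2 + (u 2 - w 2) ^ 2 + (u 3 - w 3) ^ 2 +
      (u 4 - w 4) ^ 2 ≤ 1) :
    u 2 = (v 2 + w 2) / 2 ∧ u 3 = (v 3 + w 3) / 2 ∧ u 4 = (v 4 + w 4) / 2 := by
  rw [h0, h1] at hw
  exact mid hvw (by linarith) (by linarith)

theorem sq_lem {t r m v τ : ℝ} (hr2 : r ^ 2 = 1 / 2) (hM2 : m ^ 2 = 3 / 2 - t ^ 2)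
    (hv2 : v ^ 2 = (6 - (1 + 2 * t) ^ 2) / 4) (hτ : τ ^ 2 = 1) :
    ((-(r / 2) - r * t) - 0) ^ 2 + (τ * (r * v) - 0) ^ 2 = 3 / 4 ∧
    ((-(r / 2) - r * t) - -(r / 2)) ^ 2 + (τ * (r * v) - τ * (r * (v - m))) ^ 2 = 3 / 4 ∧
    ((-(r / 2) + r * t) - -(r / 2)) ^ 2 + (τ * (r * v) - τ * (r * (v - m))) ^ 2 = 3 / 4 ∧
    ((-(r / 2) + r * t) - -r) ^ 2 + (τ * (r * v) - 0) ^ 2 = 3 / 4 := by
  refine ⟨?_, ?_, ?_, ?_⟩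
  · linear_combination (3 / 2 : ℝ) * hr2 + r ^ 2 * hv2 + r ^ 2 * v ^ 2 * hτ
  · linear_combination (3 / 2 : ℝ) * hr2 + r ^ 2 * hM2 + r ^ 2 * m ^ 2 * hτ
  · linear_combination (3 / 2 : ℝ) * hr2 + r ^ 2 * hM2 + r ^ 2 * m ^ 2 * hτ
  · linear_combination (3 / 2 : ℝ) * hr2 + r ^ 2 * hv2 + r ^ 2 * v ^ 2 * hτ

theorem key (t : ℝ) (x : Fin 8 → E 5) {τ : ℝ} (hτ : τ ^ 2 = 1) (hx0 : ∀ m : Fin 5, x 0 m = 0)
    (ha : (x 1 2 - x 0 2) ^ 2 + (x 1 3 - x 0 3) ^ 2 + (x 1 4 - x 0 4) ^ 2 = 1)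
    (hb : (x 3 2 - x 2 2) ^ 2 + (x 3 3 - x 2 3) ^ 2 + (x 3 4 - x 2 4) ^ 2 = 1)
    (hc : (x 5 2 - x 4 2) ^ 2 + (x 5 3 - x 4 3) ^ 2 + (x 5 4 - x 4 4) ^ 2 = 1)
    (hab : (x 1 2 - x 0 2) * (x 3 2 - x 2 2) + (x 1 3 - x 0 3) * (x 3 3 - x 2 3) +
      (x 1 4 - x 0 4) * (x 3 4 - x 2 4) = 0)
    (hac : (x 1 2 - x 0 2) * (x 5 2 - x 4 2) + (x 1 3 - x 0 3) * (x 5 3 - x 4 3) +
      (x 1 4 - x 0 4) * (x 5 4 - x 4 4) = 0)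
    (hbc : (x 3 2 - x 2 2) * (x 5 2 - x 4 2) + (x 3 3 - x 2 3) * (x 5 3 - x 4 3) +
      (x 3 4 - x 2 4) * (x 5 4 - x 4 4) = 0)
    (e10 : x 1 0 = 0) (e11 : x 1 1 = 0) (e30 : x 3 0 = x 2 0) (e31 : x 3 1 = x 2 1)
    (e50 : x 5 0 = x 4 0) (e51 : x 5 1 = x 4 1) (g2 : x 7 1 = x 6 1)
    (c0 : x 4 0 = -rr) (c1 : x 4 1 = 0) (b0 : x 2 0 = -(rr / 2))
    (u0 : x 6 0 = -(rr / 2) - rr * t) (w0 : x 7 0 = -(rr / 2) + rr * t)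
    (d2 : x 2 1 = τ * (rr * (yy t - hh t))) (d6 : x 6 1 = τ * (rr * yy t))
    (p2 : x 6 2 = (x 0 2 + x 1 2) / 2) (p3 : x 6 3 = (x 0 3 + x 1 3) / 2)
    (p4 : x 6 4 = (x 0 4 + x 1 4) / 2)
    (q2 : x 6 2 = (x 2 2 + x 3 2) / 2) (q3 : x 6 3 = (x 2 3 + x 3 3) / 2)
    (q4 : x 6 4 = (x 2 4 + x 3 4) / 2)
    (r2 : x 7 2 = (x 2 2 + x 3 2) / 2) (r3 : x 7 3 = (x 2 3 + x 3 3) / 2)
    (r4 : x 7 4 = (x 2 4 + x 3 4) / 2)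
    (s2 : x 7 2 = (x 4 2 + x 5 2) / 2) (s3 : x 7 3 = (x 4 3 + x 5 3) / 2)
    (s4 : x 7 4 = (x 4 4 + x 5 4) / 2) (k : Fin 8) :
    fI hτ ha hb hc hab hac hbc (Q5 t k) +
      !₂[-(rr / 2), 0, x 1 2 / 2, x 1 3 / 2, x 1 4 / 2] = x k := by
  rw [fI_apply]
  clear ha hb hc hab hac hbc hτ
  rw [hx0, zero_add] at p2 p3 p4
  have z20 : x 2 2 = x 1 2 - x 3 2 := by linarith
  have z30 : x 2 3 = x 1 3 - x 3 3 := by linarith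
  have z40 : x 2 4 = x 1 4 - x 3 4 := by linarith
  have z21 : x 4 2 = x 1 2 - x 5 2 := by linarith
  have z31 : x 4 3 = x 1 3 - x 5 3 := by linarith
  have z41 : x 4 4 = x 1 4 - x 5 4 := by linarith
  have z22 : x 7 2 = x 1 2 / 2 := by linarith
  have z32 : x 7 3 = x 1 3 / 2 := by linarith
  have z42 : x 7 4 = x 1 4 / 2 := by linarith
  clear q2 q3 q4 r2 r3 r4 s2 s3 s4
  fin_cases k
  · refine ext5 ?_ ?_ ?_ ?_ ?_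
    · simp [Q5, hx0]
    · simp [Q5, hx0]
    · simp [Q5, hx0]; ring
    · simp [Q5, hx0]; ring
    · simp [Q5, hx0]; ring
  · refine ext5 ?_ ?_ ?_ ?_ ?_
    · simp [Q5, e10]
    · simp [Q5, e11]
    · simp [Q5, hx0]; ring
    · simp [Q5, hx0]; ring
    · simp [Q5, hx0]; ring
  · refine ext5 ?_ ?_ ?_ ?_ ?_
    · simp [Q5, b0]
    · simp [Q5, d2]
    · simp [Q5, z20]; ring
    · simp [Q5, z30]; ring
    · simp [Q5, z40]; ring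
  · refine ext5 ?_ ?_ ?_ ?_ ?_
    · simp [Q5, e30, b0]
    · simp [Q5, e31, d2]
    · simp [Q5, z20]; ring
    · simp [Q5, z30]; ring
    · simp [Q5, z40]; ring
  · refine ext5 ?_ ?_ ?_ ?_ ?_
    · simp [Q5, c0]; ring
    · simp [Q5, c1]
    · simp [Q5, z21]; ring
    · simp [Q5, z31]; ring
    · simp [Q5, z41]; ring
  · refine ext5 ?_ ?_ ?_ ?_ ?_
    · simp [Q5, e50, c0]; ring
    · simp [Q5, e51, c1]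
    · simp [Q5, z21]; ring
    · simp [Q5, z31]; ring
    · simp [Q5, z41]; ring
  · refine ext5 ?_ ?_ ?_ ?_ ?_
    · simp [Q5, u0]; ring
    · simp [Q5, d6]
    · simp [Q5, p2]
    · simp [Q5, p3]
    · simp [Q5, p4]
  · refine ext5 ?_ ?_ ?_ ?_ ?_
    · simp [Q5, w0]; ring
    · simp [Q5, g2, d6]
    · simp [Q5, z22]
    · simp [Q5, z32]
    · simp [Q5, z42]

theorem nums {t : ℝ} (ht0 : 0 ≤ t) (ht1 : t ≤ 7 / 10) :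
    rr ^ 2 = 1 / 2 ∧ hh t ^ 2 = 3 / 2 - t ^ 2 ∧ yy t ^ 2 = (6 - (1 + 2 * t) ^ 2) / 4 ∧
    h5 t = hh t + 2 * (t * yy t) ∧ 0 < h5 t := by
  have hr2 : rr ^ 2 = 1 / 2 := Real.sq_sqrt (by norm_num)
  have hM2 : hh t ^ 2 = 3 / 2 - t ^ 2 := Real.sq_sqrt (by nlinarith)
  have hM0 : 0 < hh t := Real.sqrt_pos.2 (by nlinarith)
  have hv2 : yy t ^ 2 = (6 - (1 + 2 * t) ^ 2) / 4 := by
    rw [yy, div_pow, Real.sq_sqrt (by nlinarith)]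
    norm_num
  have hv0 : 0 ≤ yy t := by
    unfold yy
    positivity
  have hf : h5 t = hh t + 2 * (t * yy t) := by
    rw [h5, hh, yy]
    ring
  have hf0' : 0 < h5 t := by
    rw [hf]
    have := mul_nonneg ht0 hv0
    linarith
  exact ⟨hr2, hM2, hv2, hf, hf0'⟩

theorem sum_lem {t r m v τ f : ℝ} (hr2 : r ^ 2 = 1 / 2) (hf : f = m + 2 * (t * v)) :
    (-(r / 2) * 0 - τ * (r * (v - m)) * -r) + (-r * (τ * (r * v)) - 0 * (-(r / 2) - r * t)) +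
      ((-(r / 2) - r * t) * (τ * (r * v)) - τ * (r * v) * (-(r / 2) + r * t)) =
      -(τ * (f / 2)) := by
  rw [hf]
  linear_combination (-(τ * (m + 2 * (t * v)))) * hr2

theorem one_le_sq {a : ℝ} (h : 1 ≤ |a|) : 1 ≤ a ^ 2 := by
  rw [← sq_abs]
  nlinarith

theorem one_le_of {d f : ℝ} (hf : 0 < f) (h : f ≤ 2 * (|d| * (f / 2))) : 1 ≤ d ^ 2 := by
  apply one_le_sq
  by_contra hlt
  push Not at hlt
  have := mul_lt_mul_of_pos_right hlt hf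
  linarith

theorem thm (h : G_Q222E) (hF : G_FRM5) (_hA : G_AX) : G_P222E := by
  intro t ht hmax y hy hq
  obtain ⟨L, ε, hε, hdt, he0, he1, hf0, hf1, hg0, hg1, hn1, hn0⟩ :=
    hF (y 1 - y 0) (y 3 - y 2) (y 5 - y 4) (y 7 - y 6)
  obtain ⟨x, hx⟩ : ∃ x : Fin 8 → E 5, ∀ k, x k = L (y k - y 0) := ⟨_, fun _ => rfl⟩
  have hsub : ∀ i j, x i - x j = L (y i - y j) := by
    intro i j
    rw [hx, hx, ← map_sub]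
    congr 1
    abel
  have hd : ∀ i j, ‖x i - x j‖ ≤ 1 := by
    intro i j
    rw [hsub, LinearIsometryEquiv.norm_map, ← dist_eq_norm]
    exact hy i j
  have hco : ∀ i j, (x i 0 - x j 0) ^ 2 + (x i 1 - x j 1) ^ 2 + (x i 2 - x j 2) ^ 2 +
      (x i 3 - x j 3) ^ 2 + (x i 4 - x j 4) ^ 2 ≤ 1 := fun i j => coord (x i) (x j) (hd i j)
  have hx0 : ∀ m : Fin 5, x 0 m = 0 := by
    intro m
    rw [hx]
    simp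
  obtain ⟨Δ, hΔ⟩ : ∃ Δ : ℝ, Δ = d3 (x 1 2 - x 0 2) (x 1 3 - x 0 3) (x 1 4 - x 0 4)
    (x 3 2 - x 2 2) (x 3 3 - x 2 3) (x 3 4 - x 2 4) (x 5 2 - x 4 2) (x 5 3 - x 4 3)
    (x 5 4 - x 4 4) := ⟨_, rfl⟩
  rw [← hsub] at he0 he1 hf0 hf1 hg0 hg1 hn1 hn0
  have hB : ∀ p q : E 5, ε * dt (y 1 - y 0) (y 3 - y 2) (y 5 - y 4) p q =
      Δ * (L p 0 * L q 1 - L p 1 * L q 0) := by
    intro p q
    rw [← hdt, ← hsub, ← hsub, ← hsub, dte _ _ _ _ _ he0 he1 hf0 hf1 hg0 hg1, hΔ]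
    simp only [PiLp.sub_apply]
  have g2 : x 7 1 = x 6 1 := by
    rw [PiLp.sub_apply] at hn1
    exact sub_eq_zero.1 hn1
  have g3 : x 6 0 ≤ x 7 0 := by
    rw [PiLp.sub_apply] at hn0
    exact sub_nonneg.1 hn0
  have hP : ε * q222 y = Δ * ((x 2 0 * x 4 1 - x 2 1 * x 4 0) + (x 4 0 * x 6 1 - x 4 1 * x 6 0) +
      (x 6 0 * x 6 1 - x 6 1 * x 7 0)) := by
    have : ε * q222 y = ε * dt (y 1 - y 0) (y 3 - y 2) (y 5 - y 4) (y 2 - y 0) (y 4 - y 0) +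
        ε * dt (y 1 - y 0) (y 3 - y 2) (y 5 - y 4) (y 4 - y 0) (y 6 - y 0) +
        ε * dt (y 1 - y 0) (y 3 - y 2) (y 5 - y 4) (y 6 - y 0) (y 7 - y 0) := by
      unfold q222
      ring
    rw [this, hB, hB, hB, ← hx 2, ← hx 4, ← hx 6, ← hx 7, g2]
    ring
  have hab : |q222 y| = |ε * q222 y| := by
    rcases hε with rfl | rfl
    · rw [one_mul]
    · rw [neg_one_mul, abs_neg]
  -- the distances
  have A : ∀ k, x k 0 ^ 2 + x k 1 ^ 2 ≤ 1 - ‖x 1 - x 0‖ ^ 2 / 4 := by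
    intro k
    have := pt_seg (x k) (x 0) (x 1) he0 he1 (hd k 0) (hd k 1)
    rwa [hx0, hx0, sub_zero, sub_zero] at this
  have B : ∀ k, (x k 0 - x 2 0) ^ 2 + (x k 1 - x 2 1) ^ 2 ≤ 1 - ‖x 3 - x 2‖ ^ 2 / 4 := fun k =>
    pt_seg (x k) (x 2) (x 3) hf0 hf1 (hd k 2) (hd k 3)
  have D : ∀ k, (x k 0 - x 4 0) ^ 2 + (x k 1 - x 4 1) ^ 2 ≤ 1 - ‖x 5 - x 4‖ ^ 2 / 4 := fun k =>
    pt_seg (x k) (x 4) (x 5) hg0 hg1 (hd k 4) (hd k 5)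
  have AB : x 2 0 ^ 2 + x 2 1 ^ 2 ≤ 1 - (‖x 1 - x 0‖ ^ 2 + ‖x 3 - x 2‖ ^ 2) / 4 := by
    have := seg_seg (x 2) (x 3) (x 0) (x 1) hf0 hf1 he0 he1 (hd 2 0) (hd 2 1) (hd 3 0) (hd 3 1)
    rw [hx0, hx0, sub_zero, sub_zero] at this
    linarith
  have AD : x 4 0 ^ 2 + x 4 1 ^ 2 ≤ 1 - (‖x 1 - x 0‖ ^ 2 + ‖x 5 - x 4‖ ^ 2) / 4 := by
    have := seg_seg (x 4) (x 5) (x 0) (x 1) hg0 hg1 he0 he1 (hd 4 0) (hd 4 1) (hd 5 0) (hd 5 1)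
    rw [hx0, hx0, sub_zero, sub_zero] at this
    linarith
  have BD : (x 2 0 - x 4 0) ^ 2 + (x 2 1 - x 4 1) ^ 2 ≤
      1 - (‖x 3 - x 2‖ ^ 2 + ‖x 5 - x 4‖ ^ 2) / 4 :=
    seg_seg (x 2) (x 3) (x 4) (x 5) hf0 hf1 hg0 hg1 (hd 2 4) (hd 2 5) (hd 3 4) (hd 3 5)
  have hwu : (x 7 0 - x 6 0) ^ 2 ≤ 1 := by
    have := hco 7 6
    linarith [sq_nonneg (x 7 1 - x 6 1), sq_nonneg (x 7 2 - x 6 2), sq_nonneg (x 7 3 - x 6 3),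
      sq_nonneg (x 7 4 - x 6 4)]
  have A7 := A 7
  have B7 := B 7
  have D7 := D 7
  rw [g2] at A7 B7 D7
  have hq1 : ‖x 1 - x 0‖ ^ 2 = (x 1 2 - x 0 2) ^ 2 + (x 1 3 - x 0 3) ^ 2 + (x 1 4 - x 0 4) ^ 2 := by
    rw [nsq, he0, he1]
    simp only [PiLp.sub_apply]
    ring
  have hq2 : ‖x 3 - x 2‖ ^ 2 = (x 3 2 - x 2 2) ^ 2 + (x 3 3 - x 2 3) ^ 2 + (x 3 4 - x 2 4) ^ 2 := by
    rw [nsq, hf0, hf1]
    simp only [PiLp.sub_apply]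
    ring
  have hq3 : ‖x 5 - x 4‖ ^ 2 = (x 5 2 - x 4 2) ^ 2 + (x 5 3 - x 4 3) ^ 2 + (x 5 4 - x 4 4) ^ 2 := by
    rw [nsq, hg0, hg1]
    simp only [PiLp.sub_apply]
    ring
  have hb1 : |Δ| ≤ ‖x 1 - x 0‖ * ‖x 3 - x 2‖ * ‖x 5 - x 4‖ := by
    apply abs_le_of_sq_le_sq
    · rw [mul_pow, mul_pow, hq1, hq2, hq3, hΔ]
      exact had3 _ _ _ _ _ _ _ _ _
    · positivity
  rw [hab, hP, abs_mul] at hq
  have hval : h5 t ≤ 2 * (‖x 1 - x 0‖ * ‖x 3 - x 2‖ * ‖x 5 - x 4‖ *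
      |(x 2 0 * x 4 1 - x 2 1 * x 4 0) + (x 4 0 * x 6 1 - x 4 1 * x 6 0) +
      (x 6 0 * x 6 1 - x 6 1 * x 7 0)|) :=
    hq.trans (mul_le_mul_of_nonneg_left (mul_le_mul_of_nonneg_right hb1 (abs_nonneg _)) zero_le_two)
  obtain ⟨l1, l2, l3, c0, c1, b0, u0, w0, hbu⟩ := h t ht hmax ‖x 1 - x 0‖ ‖x 3 - x 2‖ ‖x 5 - x 4‖
    (x 2 0) (x 2 1) (x 4 0) (x 4 1) (x 6 0)
    (x 6 1) (x 7 0) (norm_nonneg _) (hd 1 0) (norm_nonneg _) (hd 3 2) (norm_nonneg _) (hd 5 4) g3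
    AB AD BD (A 6) A7 (B 6) B7 (D 6) D7 hwu hval
  obtain ⟨ht0, ht1⟩ := ht
  -- the numbers
  obtain ⟨hr2, hM2, hv2, hf, hf0'⟩ := nums ht0 ht1
  obtain ⟨τ, hτ, d2, d6⟩ : ∃ τ : ℝ, τ ^ 2 = 1 ∧ x 2 1 = τ * (rr * (yy t - hh t)) ∧
      x 6 1 = τ * (rr * yy t) := by
    rcases hbu with ⟨h1, h2⟩ | ⟨h1, h2⟩
    · exact ⟨1, by norm_num, by rw [h1]; ring, by rw [h2]; ring⟩
    · exact ⟨-1, by norm_num, by rw [h1]; ring, by rw [h2]; ring⟩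
  have hτa : |τ| = 1 := by
    rw [← sq_eq_sq₀ (abs_nonneg _) zero_le_one, sq_abs, hτ]
    norm_num
  have hsum : (x 2 0 * x 4 1 - x 2 1 * x 4 0) + (x 4 0 * x 6 1 - x 4 1 * x 6 0) +
      (x 6 0 * x 6 1 - x 6 1 * x 7 0) = -(τ * (h5 t / 2)) := by
    rw [c0, c1, b0, u0, w0, d2, d6]
    exact sum_lem hr2 hf
  rw [hsum, abs_neg, abs_mul τ, hτa, one_mul, abs_of_pos (half_pos hf0')] at hq
  have hΔ2 : 1 ≤ Δ ^ 2 := one_le_of hf0' hq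
  rw [hΔ] at hΔ2
  rw [l1] at hq1
  rw [l2] at hq2
  rw [l3] at hq3
  have ha1 : (x 1 2 - x 0 2) ^ 2 + (x 1 3 - x 0 3) ^ 2 + (x 1 4 - x 0 4) ^ 2 = 1 := by
    linarith
  have hb1' : (x 3 2 - x 2 2) ^ 2 + (x 3 3 - x 2 3) ^ 2 + (x 3 4 - x 2 4) ^ 2 = 1 := by
    linarith
  have hc1' : (x 5 2 - x 4 2) ^ 2 + (x 5 3 - x 4 3) ^ 2 + (x 5 4 - x 4 4) ^ 2 = 1 := by
    linarith
  have oab := orth ha1 hb1' hc1' hΔ2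
  have oac := orth ha1 hc1' hb1' (by
    refine hΔ2.trans (le_of_eq ?_)
    unfold d3
    ring)
  have obc := orth hb1' hc1' ha1 (by
    refine hΔ2.trans (le_of_eq ?_)
    unfold d3
    ring)
  have e10 : x 1 0 = 0 := by
    rw [PiLp.sub_apply, hx0, sub_zero] at he0
    exact he0
  have e11 : x 1 1 = 0 := by
    rw [PiLp.sub_apply, hx0, sub_zero] at he1
    exact he1
  have e30 : x 3 0 = x 2 0 := by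
    rw [PiLp.sub_apply] at hf0
    exact sub_eq_zero.1 hf0
  have e31 : x 3 1 = x 2 1 := by
    rw [PiLp.sub_apply] at hf1
    exact sub_eq_zero.1 hf1
  have e50 : x 5 0 = x 4 0 := by
    rw [PiLp.sub_apply] at hg0
    exact sub_eq_zero.1 hg0
  have e51 : x 5 1 = x 4 1 := by
    rw [PiLp.sub_apply] at hg1
    exact sub_eq_zero.1 hg1
  obtain ⟨n1, n2, n3, n4⟩ := sq_lem hr2 hM2 hv2 hτ
  have sq1 : (x 6 0 - x 0 0) ^ 2 + (x 6 1 - x 0 1) ^ 2 = 3 / 4 := by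
    rw [hx0, hx0, u0, d6]
    exact n1
  have sq2 : (x 6 0 - x 2 0) ^ 2 + (x 6 1 - x 2 1) ^ 2 = 3 / 4 := by
    rw [u0, b0, d6, d2]
    exact n2
  have sq3 : (x 7 0 - x 2 0) ^ 2 + (x 7 1 - x 2 1) ^ 2 = 3 / 4 := by
    rw [g2, w0, b0, d6, d2]
    exact n3
  have sq4 : (x 7 0 - x 4 0) ^ 2 + (x 7 1 - x 4 1) ^ 2 = 3 / 4 := by
    rw [g2, w0, c0, c1, d6]
    exact n4
  -- the last three coordinates
  obtain ⟨p2, p3, p4⟩ := midx (x 6) (x 0) (x 1) sq1 (e10.trans (hx0 0).symm)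
    (e11.trans (hx0 1).symm) ha1 (hco 6 0) (hco 6 1)
  obtain ⟨q2, q3, q4⟩ := midx (x 6) (x 2) (x 3) sq2 e30 e31 hb1' (hco 6 2) (hco 6 3)
  obtain ⟨r2, r3, r4⟩ := midx (x 7) (x 2) (x 3) sq3 e30 e31 hb1' (hco 7 2) (hco 7 3)
  obtain ⟨s2, s3, s4⟩ := midx (x 7) (x 4) (x 5) sq4 e50 e51 hc1' (hco 7 4) (hco 7 5)
  have key := key t x hτ hx0 ha1 hb1' hc1' oab oac obc e10 e11 e30 e31 e50 e51 g2 c0 c1 b0 u0 w0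
    d2 d6 p2 p3 p4 q2 q3 q4 r2 r3 r4 s2 s3 s4
  refine ⟨(((fI hτ ha1 hb1' hc1' oab oac obc).toIsometryEquiv.trans
    (IsometryEquiv.addRight !₂[-(rr / 2), 0, x 1 2 / 2, x 1 3 / 2, x 1 4 / 2])).trans
      L.symm.toIsometryEquiv).trans (IsometryEquiv.addRight (y 0)), fun k => ?_⟩
  change L.symm (fI hτ ha1 hb1' hc1' oab oac obc (Q5 t k) +
    !₂[-(rr / 2), 0, x 1 2 / 2, x 1 3 / 2, x 1 4 / 2]) + y 0 = y k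
  rw [key, hx, LinearIsometryEquiv.symm_apply_apply, sub_add_cancel]

end Pool.Agent.Helper68.Vol5.PkP222E
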